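import Mathlib

/-!
# Rigidity of factorizations under `Φ_L`: property (R) fails for at least exponential tails

Problem MP_9cb8e5_pr, Q1 (part).  Let `L s = ∫ exp (- s x) μ(dx)` with `μ` a probability measure on `[0, ∞)` with
`μ [k, M k] ≥ exp (- C k)`.  With `w = cos ξ`, `ψ = 1 - w`, `η₁ = ε (1 - w²) ∈ 𝒞` and
`η₂ = ψ - η₁ = (1 - w) (1 - ε - ε w) ∉ 𝒞`, the function `L ∘ η₂` is for small `ε` a characteristic function:
its expansion in powers of `w = cos ξ` has nonnegative coefficients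
`∫ exp (- x (1 - ε)) H_k(x) μ(dx)`, `exp (x w - ε x w²) = ∑ H_k(x) w^k` (rescaled Hermite polynomials): `H_k(x) ≥ (x/2)^k/k!`
for `x ≥ 8 ε k`, and `H_k(x) ≥ - δ^k` for all `x ≥ 0`, with `δ` as small as we please.
-/

namespace Pool.Agent.Results.MP_9cb8e5_pr.ExponentialTails

open MeasureTheory Filter Topology Finset
open scoped ENNReal Nat

/-- `f` is the characteristic function of a Borel probability measure on `ℝ`. -/
def IsCF (f : ℝ → ℝ) : Prop :=
  ∃ P : Measure ℝ, IsProbabilityMeasure P ∧ ∀ ξ : ℝ, charFun P ξ = ((f ξ : ℝ) : ℂ)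

/-- The class `𝒞` of the problem file. -/
def InC (ψ : ℝ → ℝ) : Prop :=
  ∃ (σ : ℝ) (ν : Measure ℝ), 0 ≤ σ ∧ ν (Set.Iic 0) = 0 ∧ Integrable (fun t => min 1 (t ^ 2)) ν ∧
    ∀ ξ : ℝ, ψ ξ = 1 / 2 * σ ^ 2 * ξ ^ 2 + ∫ t, (1 - Real.cos (t * ξ)) ∂ν

/-- The indecomposable elements of `𝒞` (the explicit list of the problem file). -/
def Indec (ψ : ℝ → ℝ) : Prop :=
  (∃ c : ℝ, 0 < c ∧ ∀ ξ, ψ ξ = c * ξ ^ 2) ∨
  (∃ c t : ℝ, 0 < c ∧ 0 < t ∧ ∀ ξ, ψ ξ = c * (1 - Real.cos (t * ξ)))

/-- Property (R). -/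
def PropR (L : ℝ → ℝ) : Prop :=
  ∀ f₁ f₂ s₁ s₂ ψ : ℝ → ℝ, IsCF f₁ → IsCF f₂ →
    (∀ ξ, 0 ≤ s₁ ξ ∧ f₁ ξ = L (s₁ ξ)) → (∀ ξ, 0 ≤ s₂ ξ ∧ f₂ ξ = L (s₂ ξ)) →
    Indec ψ → (∀ ξ, L (s₁ ξ + s₂ ξ) = L (ψ ξ)) →
    ∃ η₁ η₂ : ℝ → ℝ, InC η₁ ∧ InC η₂ ∧ (∀ ξ, f₁ ξ = L (η₁ ξ)) ∧ (∀ ξ, f₂ ξ = L (η₂ ξ))

/-! ### Characteristic functions from power series in the cosine -/

lemma cf_pow (t : ℝ) (k : ℕ) : ∃ P : Measure ℝ, IsProbabilityMeasure P ∧
    ∀ ξ : ℝ, charFun P ξ = ((Real.cos (t * ξ) ^ k : ℝ) : ℂ) := by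
  induction k with
  | zero =>
    refine ⟨Measure.dirac 0, inferInstance, fun ξ => ?_⟩
    simp [charFun_apply_real]
  | succ k ih =>
    obtain ⟨P, hP, hc⟩ := ih
    set B : Measure ℝ := (2⁻¹ : ℝ≥0∞) • Measure.dirac t + (2⁻¹ : ℝ≥0∞) • Measure.dirac (-t) with hB
    have hBp : IsProbabilityMeasure B := by
      refine ⟨?_⟩
      simp [hB, ENNReal.inv_two_add_inv_two]
    have hBc : ∀ ξ : ℝ, charFun B ξ = ((Real.cos (t * ξ) : ℝ) : ℂ) := by
      intro ξ
      rw [charFun_apply_real, hB, integral_add_measure, integral_smul_measure,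
        integral_smul_measure, integral_dirac, integral_dirac]
      · simp only [ENNReal.toReal_inv, ENNReal.toReal_ofNat]
        rw [Complex.ofReal_cos, Complex.cos]
        push_cast
        simp only [Complex.real_smul]
        push_cast
        rw [show (ξ : ℂ) * t * Complex.I = t * ξ * Complex.I by ring,
          show (ξ : ℂ) * (-t) * Complex.I = -(t * ξ) * Complex.I by ring]
        ring
      · exact (integrable_dirac (by simp)).smul_measure (by simp)
      · exact (integrable_dirac (by simp)).smul_measure (by simp)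
    refine ⟨P ∗ B, inferInstance, fun ξ => ?_⟩
    rw [charFun_conv, hc, hBc]
    push_cast
    ring

lemma cf_of_coeffs (c : ℕ → ℝ) (hc : ∀ k, 0 ≤ c k) (hs : HasSum c 1) (t : ℝ) :
    IsCF (fun ξ => ∑' k, c k * Real.cos (t * ξ) ^ k) := by
  choose P hP hPc using cf_pow t
  set Q : Measure ℝ := Measure.sum (fun k => ENNReal.ofReal (c k) • P k) with hQ
  have hQp : IsProbabilityMeasure Q := by
    refine ⟨?_⟩
    rw [hQ, Measure.sum_apply _ MeasurableSet.univ]
    have h1 : ∀ k, (ENNReal.ofReal (c k) • P k) Set.univ = ENNReal.ofReal (c k) := by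
      intro k
      have := hP k
      simp
    simp only [h1]
    rw [← ENNReal.ofReal_tsum_of_nonneg hc hs.summable, hs.tsum_eq, ENNReal.ofReal_one]
  refine ⟨Q, hQp, fun ξ => ?_⟩
  rw [charFun_apply_real]
  have hint : Integrable (fun x : ℝ => Complex.exp (ξ * x * Complex.I)) Q := by
    refine Integrable.of_bound (C := 1) ?_ (ae_of_all _ fun x => ?_)
    · exact (by fun_prop : Continuous fun x : ℝ => Complex.exp (ξ * x * Complex.I)).aestronglyMeasurable
    · rw [show (ξ : ℂ) * x * Complex.I = ((ξ * x : ℝ) : ℂ) * Complex.I by push_cast; ring,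
        Complex.norm_exp_ofReal_mul_I]
  rw [hQ] at hint ⊢
  rw [integral_sum_measure hint]
  rw [Complex.ofReal_tsum]
  refine tsum_congr fun k => ?_
  rw [integral_smul_measure, ENNReal.toReal_ofReal (hc k), ← charFun_apply_real, hPc k ξ]
  simp only [Complex.real_smul]
  push_cast
  ring

lemma mixture {μ : Measure ℝ} [IsProbabilityMeasure μ] (a : ℕ → ℝ → ℝ)
    (ha : ∀ k, Measurable (a k)) (g : ℝ → ℝ → ℝ) (K : ℝ)
    (hK : ∀ᵐ x ∂μ, ∀ n, ∑ k ∈ range n, |a k x| ≤ K)
    (hg : ∀ᵐ x ∂μ, ∀ w : ℝ, |w| ≤ 1 → HasSum (fun k => a k x * w ^ k) (g w x))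
    (h1 : ∀ᵐ x ∂μ, g 1 x = 1) (hc : ∀ k, 0 ≤ ∫ x, a k x ∂μ) (t : ℝ) :
    IsCF (fun ξ => ∫ x, g (Real.cos (t * ξ)) x ∂μ) := by
  have hint : ∀ k, Integrable (a k) μ := by
    intro k
    refine Integrable.of_bound (C := K) (ha k).aestronglyMeasurable ?_
    filter_upwards [hK] with x hx
    rw [Real.norm_eq_abs]
    refine le_trans ?_ (hx (k + 1))
    exact single_le_sum (f := fun k => |a k x|) (fun i _ => abs_nonneg _) (self_mem_range_succ k)
  have hsum : Summable (fun k => ∫ x, |a k x| ∂μ) := by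
    refine summable_of_sum_range_le (c := K) (fun k => integral_nonneg fun x => abs_nonneg _) ?_
    intro n
    rw [← integral_finset_sum _ fun k _ => (hint k).abs]
    calc ∫ x, ∑ k ∈ range n, |a k x| ∂μ ≤ ∫ _, K ∂μ := by
          refine integral_mono_ae (integrable_finset_sum _ fun k _ => (hint k).abs)
            (integrable_const _) ?_
          filter_upwards [hK] with x hx
          exact hx n
      _ = K := by simp
  have hmain : ∀ w : ℝ, |w| ≤ 1 → HasSum (fun k => (∫ x, a k x ∂μ) * w ^ k) (∫ x, g w x ∂μ) := by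
    intro w hw
    have h2 := hasSum_integral_of_summable_integral_norm (μ := μ)
      (F := fun k x => a k x * w ^ k) (fun k => (hint k).mul_const _) (by
        refine Summable.of_nonneg_of_le (fun k => integral_nonneg fun x => norm_nonneg _)
          (fun k => ?_) hsum
        refine integral_mono ((hint k).mul_const _).norm (hint k).abs fun x => ?_
        show ‖a k x * w ^ k‖ ≤ |a k x|
        rw [norm_mul, norm_pow, Real.norm_eq_abs, Real.norm_eq_abs]
        exact mul_le_of_le_one_right (abs_nonneg _) (pow_le_one₀ (abs_nonneg _) hw))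
    have h3 : ∫ x, (∑' k, a k x * w ^ k) ∂μ = ∫ x, g w x ∂μ := by
      refine integral_congr_ae ?_
      filter_upwards [hg] with x hx
      exact (hx w hw).tsum_eq
    rw [h3] at h2
    simp only [integral_mul_const] at h2
    exact h2
  have hone : HasSum (fun k => ∫ x, a k x ∂μ) 1 := by
    have h2 := hmain 1 (by simp)
    have h3 : ∫ x, g 1 x ∂μ = 1 := by
      rw [integral_congr_ae h1]
      simp
    rw [h3] at h2
    simpa using h2
  obtain ⟨P, hP, hPc⟩ := cf_of_coeffs _ hc hone t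
  refine ⟨P, hP, fun ξ => ?_⟩
  rw [hPc ξ]
  exact congrArg Complex.ofReal (hmain _ (Real.abs_cos_le_one _)).tsum_eq

/-! ### The coefficients of `exp (x w - ε x w²)` -/

/-- Taylor coefficients of `w ↦ exp (x w - ε x w²)`. -/
noncomputable def H (ε x : ℝ) : ℕ → ℝ
  | 0 => 1
  | 1 => x
  | (n + 2) => (x * H ε x (n + 1) - 2 * ε * x * H ε x n) / (n + 2)

lemma H_zero (ε x : ℝ) : H ε x 0 = 1 := by rw [H]
lemma H_one (ε x : ℝ) : H ε x 1 = x := by rw [H]
lemma H_succ (ε x : ℝ) (n : ℕ) :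
    H ε x (n + 2) = (x * H ε x (n + 1) - 2 * ε * x * H ε x n) / (n + 2) := by rw [H]

lemma H_cont (ε : ℝ) (n : ℕ) : Continuous (fun x => H ε x n) ∧ Continuous (fun x => H ε x (n + 1)) := by
  induction n with
  | zero =>
    constructor
    · simp only [H_zero]; exact continuous_const
    · simp only [Nat.zero_add, H_one]; exact continuous_id
  | succ n ih =>
    refine ⟨ih.2, ?_⟩
    simp only [H_succ]
    exact ((continuous_id.mul ih.2).sub ((continuous_const.mul continuous_id).mul ih.1)).div_const _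

lemma H_pos {ε x : ℝ} (hx : 0 ≤ x) {k : ℕ} (hε : 0 ≤ ε) (hk : 8 * ε * k ≤ x) (n : ℕ) (hn : n ≤ k) :
    0 ≤ H ε x n ∧ (n + 1 ≤ k → x * H ε x n ≤ 2 * (n + 1) * H ε x (n + 1)) := by
  induction n with
  | zero =>
    refine ⟨by rw [H_zero]; norm_num, fun _ => ?_⟩
    rw [H_zero, Nat.zero_add, H_one]
    push_cast
    linarith
  | succ n ih =>
    obtain ⟨h1, h2⟩ := ih (by omega)
    have h3 := h2 hn
    have hn1 : (0 : ℝ) < 2 * ((n : ℝ) + 1) := by positivity
    have h4 : 0 ≤ H ε x (n + 1) := by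
      by_contra hcon
      push Not at hcon
      have h5 : 2 * ((n : ℝ) + 1) * H ε x (n + 1) < 0 := mul_neg_of_pos_of_neg hn1 hcon
      have h6 : 0 ≤ x * H ε x n := mul_nonneg hx h1
      linarith
    refine ⟨h4, fun hnk => ?_⟩
    rw [H_succ]
    have hn2 : (0 : ℝ) < (n : ℝ) + 2 := by positivity
    have h5 : 8 * ε * ((n : ℝ) + 1) ≤ x := by
      refine le_trans ?_ hk
      refine mul_le_mul_of_nonneg_left ?_ (by positivity)
      exact_mod_cast (by omega : n + 1 ≤ k)
    have h6 : 2 * ε * x * H ε x n ≤ 4 * ε * ((n : ℝ) + 1) * H ε x (n + 1) := by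
      have := mul_le_mul_of_nonneg_left h3 (by positivity : (0 : ℝ) ≤ 2 * ε)
      nlinarith [this]
    have h7 : 8 * ε * ((n : ℝ) + 1) * H ε x (n + 1) ≤ x * H ε x (n + 1) :=
      mul_le_mul_of_nonneg_right h5 h4
    push_cast
    have h8 : 2 * ((n : ℝ) + 1 + 1) * ((x * H ε x (n + 1) - 2 * ε * x * H ε x n) / ((n : ℝ) + 2)) =
        2 * (x * H ε x (n + 1) - 2 * ε * x * H ε x n) := by
      field_simp
      ring
    rw [h8]
    linarith

lemma H_lower {ε x : ℝ} (hx : 0 ≤ x) {k : ℕ} (hε : 0 ≤ ε) (hk : 8 * ε * k ≤ x) (n : ℕ) (hn : n ≤ k) :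
    (x / 2) ^ n / n ! ≤ H ε x n := by
  induction n with
  | zero => rw [H_zero]; simp
  | succ n ih =>
    have h1 := ih (by omega)
    have h2 := (H_pos hx hε hk n (by omega)).2 hn
    have hn1 : (0 : ℝ) < 2 * ((n : ℝ) + 1) := by positivity
    have h3 : x * ((x / 2) ^ n / n !) ≤ 2 * ((n : ℝ) + 1) * H ε x (n + 1) :=
      (mul_le_mul_of_nonneg_left h1 hx).trans h2
    have h4 : (x / 2) ^ (n + 1) / (n + 1)! = x * ((x / 2) ^ n / n !) / (2 * ((n : ℝ) + 1)) := by
      rw [Nat.factorial_succ]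
      push_cast
      have : ((n ! : ℕ) : ℝ) ≠ 0 := by positivity
      field_simp
      ring
    rw [h4, div_le_iff₀ hn1]
    linarith


/-- The entire function `w ↦ exp (x w - ε x w²)`. -/
noncomputable def FF (ε x : ℝ) (w : ℂ) : ℂ := Complex.exp ((x : ℂ) * w - (ε : ℂ) * x * w ^ 2)

lemma FF_diff (ε x : ℝ) : Differentiable ℂ (FF ε x) := by
  unfold FF
  fun_prop

lemma FF_der (ε x : ℝ) (n : ℕ) (w : ℂ) :
    HasDerivAt (iteratedDeriv n (FF ε x)) (iteratedDeriv (n + 1) (FF ε x) w) w := by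
  have h : ContDiff ℂ ((n + 1 : ℕ) : ℕ∞) (FF ε x) := (FF_diff ε x).contDiff
  have h2 : Differentiable ℂ (iteratedDeriv n (FF ε x)) :=
    h.differentiable_iteratedDeriv n (by exact_mod_cast Nat.lt_succ_self n)
  rw [iteratedDeriv_succ]
  exact (h2 w).hasDerivAt

lemma FF_one (ε x : ℝ) (w : ℂ) :
    iteratedDeriv 1 (FF ε x) w = ((x : ℂ) - 2 * ε * x * w) * FF ε x w := by
  rw [iteratedDeriv_one]
  have h2 : HasDerivAt (fun w : ℂ => (x : ℂ) * w - (ε : ℂ) * x * w ^ 2)
      ((x : ℂ) - 2 * ε * x * w) w := by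
    have a1 := (hasDerivAt_id w).const_mul (x : ℂ)
    have a2 := (hasDerivAt_pow 2 w).const_mul ((ε : ℂ) * x)
    refine (a1.sub a2).congr_deriv ?_
    simp
    ring
  have h3 : HasDerivAt (FF ε x) (((x : ℂ) - 2 * ε * x * w) * FF ε x w) w := by
    refine h2.cexp.congr_deriv ?_
    rw [FF]
    ring
  exact h3.deriv

lemma lin_der (ε x : ℝ) (w : ℂ) :
    HasDerivAt (fun w : ℂ => (x : ℂ) - 2 * ε * x * w) (-(2 * ε * x)) w := by
  have := ((hasDerivAt_id w).const_mul (2 * (ε : ℂ) * x)).const_sub (x : ℂ)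
  refine this.congr_deriv ?_
  ring

lemma FF_rec (ε x : ℝ) (n : ℕ) : ∀ w, iteratedDeriv (n + 2) (FF ε x) w =
    ((x : ℂ) - 2 * ε * x * w) * iteratedDeriv (n + 1) (FF ε x) w
      - 2 * ε * x * (n + 1) * iteratedDeriv n (FF ε x) w := by
  induction n with
  | zero =>
    intro w
    have h2 : iteratedDeriv 1 (FF ε x) = fun w => ((x : ℂ) - 2 * ε * x * w) * FF ε x w :=
      funext (FF_one ε x)
    have h3 := FF_der ε x 1 w
    rw [h2] at h3
    have b2 := FF_der ε x 0 w
    rw [iteratedDeriv_zero] at b2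
    have h4 := (lin_der ε x w).mul b2
    have h5 := h3.unique h4
    simp only [Nat.zero_add] at h5 ⊢
    rw [show (2 : ℕ) = 1 + 1 from rfl, h5, iteratedDeriv_zero]
    push_cast
    ring
  | succ n ih =>
    intro w
    have h2 : iteratedDeriv (n + 2) (FF ε x) = fun w =>
        ((x : ℂ) - 2 * ε * x * w) * iteratedDeriv (n + 1) (FF ε x) w
          - 2 * ε * x * (n + 1) * iteratedDeriv n (FF ε x) w := funext ih
    have h3 := FF_der ε x (n + 2) w
    rw [h2] at h3
    have h4 := ((lin_der ε x w).mul (FF_der ε x (n + 1) w)).sub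
      ((FF_der ε x n w).const_mul (2 * (ε : ℂ) * x * (n + 1)))
    have h5 := h3.unique h4
    rw [show n + 1 + 2 = n + 2 + 1 from rfl, h5, show n + 1 + 1 = n + 2 from rfl]
    push_cast
    ring

lemma FF_H (ε x : ℝ) (n : ℕ) : iteratedDeriv n (FF ε x) 0 = ((n ! * H ε x n : ℝ) : ℂ) ∧
    iteratedDeriv (n + 1) (FF ε x) 0 = (((n + 1)! * H ε x (n + 1) : ℝ) : ℂ) := by
  induction n with
  | zero =>
    constructor
    · rw [iteratedDeriv_zero, H_zero]
      simp [FF]
    · rw [Nat.zero_add, FF_one, H_one]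
      simp [FF]
  | succ n ih =>
    refine ⟨ih.2, ?_⟩
    rw [show n + 1 + 1 = n + 2 from rfl, FF_rec, ih.1, ih.2, H_succ]
    simp only [Nat.factorial_succ]
    push_cast
    have h1 : ((n : ℂ) + 2) ≠ 0 := by
      have : ((n + 2 : ℕ) : ℂ) ≠ 0 := by exact_mod_cast (by omega : n + 2 ≠ 0)
      simpa using this
    field_simp
    ring

lemma FF_sum (ε x w : ℝ) : HasSum (fun n => H ε x n * w ^ n) (Real.exp (x * w - ε * x * w ^ 2)) := by
  have h := Complex.hasSum_taylorSeries_of_entire (FF_diff ε x) 0 (w : ℂ)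
  have h2 : (fun n : ℕ => ((n ! : ℂ))⁻¹ • ((w : ℂ) - 0) ^ n • iteratedDeriv n (FF ε x) 0) =
      fun n => ((H ε x n * w ^ n : ℝ) : ℂ) := by
    funext n
    rw [(FF_H ε x n).1]
    have : ((n ! : ℕ) : ℂ) ≠ 0 := by exact_mod_cast (Nat.factorial_ne_zero n)
    push_cast
    simp only [smul_eq_mul, sub_zero]
    field_simp
  rw [h2] at h
  have h3 : FF ε x w = ((Real.exp (x * w - ε * x * w ^ 2) : ℝ) : ℂ) := by
    rw [FF]
    push_cast
    rfl
  rw [h3] at h
  exact_mod_cast h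

lemma H_cauchy {ε x R : ℝ} (hε : 0 ≤ ε) (hx : 0 ≤ x) (hR : 0 < R) (n : ℕ) :
    |H ε x n| ≤ Real.exp (x * R + ε * x * R ^ 2) / R ^ n := by
  have h := Complex.norm_iteratedDeriv_le_of_forall_mem_sphere_norm_le n hR (c := 0)
    (f := FF ε x) (C := Real.exp (x * R + ε * x * R ^ 2)) ((FF_diff ε x).diffContOnCl) (by
    intro z hz
    rw [mem_sphere_zero_iff_norm] at hz
    rw [FF]
    refine (Complex.norm_exp_le_exp_norm _).trans (Real.exp_le_exp.2 ?_)
    refine (norm_sub_le _ _).trans ?_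
    rw [norm_mul, norm_mul, norm_mul, norm_pow, hz, Complex.norm_real, Complex.norm_real,
      Real.norm_of_nonneg hx, Real.norm_of_nonneg hε])
  rw [(FF_H ε x n).1, Complex.norm_real, Real.norm_eq_abs, abs_mul, Nat.abs_cast, mul_div_assoc] at h
  exact le_of_mul_le_mul_left h (by positivity)

/-- The weighted coefficients. -/
noncomputable def aa (ε : ℝ) (k : ℕ) (x : ℝ) : ℝ := Real.exp (-x * (1 - ε)) * H ε x k

lemma aa_meas (ε : ℝ) (k : ℕ) : Measurable (aa ε k) := by
  unfold aa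
  exact ((by fun_prop : Continuous fun x : ℝ => Real.exp (-x * (1 - ε))).mul
    (H_cont ε k).1).measurable

lemma aa_lower {R x : ℝ} (hR : 1 ≤ R) (hx : 0 ≤ x) (k : ℕ) :
    -(Real.exp 2 / R) ^ k ≤ aa (1 / (8 * R)) k x := by
  have hRp : 0 < R := by linarith
  have hε : 0 ≤ 1 / (8 * R) := by positivity
  have hε1 : 1 / (8 * R) ≤ 1 := by
    rw [div_le_one (by positivity)]
    linarith
  have hδ : 0 ≤ (Real.exp 2 / R) ^ k := by positivity
  unfold aa
  by_cases hk : 8 * (1 / (8 * R)) * k ≤ x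
  · have h1 := (H_pos hx hε hk k le_rfl).1
    have h2 : 0 ≤ Real.exp (-x * (1 - 1 / (8 * R))) * H (1 / (8 * R)) x k :=
      mul_nonneg (Real.exp_pos _).le h1
    linarith
  · push Not at hk
    have hxR : x * R ≤ k := by
      have h3 : 8 * (1 / (8 * R)) * k = k / R := by field_simp
      rw [h3, lt_div_iff₀ hRp] at hk
      exact hk.le
    have h4 := H_cauchy hε hx hRp k (ε := 1 / (8 * R))
    have h5 : Real.exp (x * R + 1 / (8 * R) * x * R ^ 2) / R ^ k ≤ (Real.exp 2 / R) ^ k := by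
      rw [div_pow, ← Real.exp_nat_mul]
      refine div_le_div_of_nonneg_right (Real.exp_le_exp.2 ?_) (by positivity)
      have h6 : 1 / (8 * R) * x * R ^ 2 = x * R / 8 := by
        field_simp
      rw [h6]
      have h7 : (0 : ℝ) ≤ k := Nat.cast_nonneg k
      linarith
    have h8 : Real.exp (-x * (1 - 1 / (8 * R))) ≤ 1 := by
      rw [Real.exp_le_one_iff]
      nlinarith
    have h9 : |Real.exp (-x * (1 - 1 / (8 * R))) * H (1 / (8 * R)) x k| ≤ (Real.exp 2 / R) ^ k := by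
      rw [abs_mul, abs_of_pos (Real.exp_pos _)]
      calc Real.exp (-x * (1 - 1 / (8 * R))) * |H (1 / (8 * R)) x k|
          ≤ 1 * |H (1 / (8 * R)) x k| := mul_le_mul_of_nonneg_right h8 (abs_nonneg _)
        _ ≤ (Real.exp 2 / R) ^ k := by rw [one_mul]; exact h4.trans h5
    exact (abs_le.1 h9).1

lemma aa_sum (ε x w : ℝ) : HasSum (fun k => aa ε k x * w ^ k)
    (Real.exp (-x * ((1 - w) * (1 - ε - ε * w)))) := by
  have h := (FF_sum ε x w).mul_left (Real.exp (-x * (1 - ε)))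
  rw [← Real.exp_add] at h
  have h1 : -x * (1 - ε) + (x * w - ε * x * w ^ 2) = -x * ((1 - w) * (1 - ε - ε * w)) := by ring
  rw [h1] at h
  have h2 : (fun k => aa ε k x * w ^ k) =
      fun k => Real.exp (-x * (1 - ε)) * (H ε x k * w ^ k) := by
    funext k
    unfold aa
    ring
  rw [h2]
  exact h


/-- The second factor is a characteristic function. -/
lemma cf_second {μ : Measure ℝ} [IsProbabilityMeasure μ] (hμ : μ (Set.Iio 0) = 0) {C M : ℝ}
    (hC : 0 ≤ C) (hM : 1 ≤ M)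
    (htail : ∀ k : ℕ, 1 ≤ k → Real.exp (-(C * k)) ≤ μ.real (Set.Icc (k : ℝ) (M * k)))
    {R : ℝ} (hR : R = 4 * Real.exp (2 + M + C)) :
    IsCF (fun ξ => ∫ x, Real.exp (-x * ((1 - Real.cos (1 * ξ)) *
      (1 - 1 / (8 * R) - 1 / (8 * R) * Real.cos (1 * ξ)))) ∂μ) := by
  have hexp : 1 ≤ Real.exp (2 + M + C) := Real.one_le_exp (by linarith)
  have hR1 : 1 ≤ R := by rw [hR]; linarith
  have hRp : 0 < R := by linarith
  have hδ : Real.exp 2 / R = Real.exp (-(M + C)) / 4 := by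
    rw [hR, show (2 + M + C : ℝ) = 2 + (M + C) by ring, Real.exp_add, Real.exp_neg]
    have := (Real.exp_pos 2).ne'
    have := (Real.exp_pos (M + C)).ne'
    field_simp
  have hδ0 : 0 ≤ Real.exp 2 / R := by positivity
  have hδ1 : Real.exp 2 / R ≤ 1 / 4 := by
    rw [hδ]
    have : Real.exp (-(M + C)) ≤ 1 := Real.exp_le_one_iff.2 (by linarith)
    linarith
  have hlow := fun (x : ℝ) (hx : 0 ≤ x) (k : ℕ) => aa_lower (R := R) (x := x) hR1 hx k
  have hε : 0 ≤ 1 / (8 * R) := by positivity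
  have h8R : ∀ k : ℝ, 8 * (1 / (8 * R)) * k = k / R := by
    intro k
    field_simp
  generalize hεdef : 1 / (8 * R) = ε at *
  generalize hδdef : Real.exp 2 / R = δ at *
  have hae : ∀ᵐ x ∂μ, 0 ≤ x := by
    rw [ae_iff]
    have : {a : ℝ | ¬ 0 ≤ a} = Set.Iio 0 := by
      ext a
      simp
    rw [this]
    exact hμ
  have h5 : (1 - δ)⁻¹ ≤ 2 := by
    rw [inv_le_comm₀ (by linarith) (by norm_num)]
    linarith
  have hgeo : ∀ n, ∑ k ∈ range n, δ ^ k ≤ 2 := by
    intro n
    have h1 : ∑ k ∈ range n, δ ^ k ≤ (1 - δ)⁻¹ :=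
      sum_le_hasSum _ (fun k _ => pow_nonneg hδ0 k) (hasSum_geometric_of_lt_one hδ0 (by linarith))
    exact h1.trans h5
  have habs : ∀ x, 0 ≤ x → ∀ n, ∑ k ∈ range n, |aa ε k x| ≤ 7 := by
    intro x hx n
    have h1 : ∀ k, |aa ε k x| ≤ aa ε k x + 2 * δ ^ k := by
      intro k
      have h2 := hlow x hx k
      have h3 : 0 ≤ δ ^ k := pow_nonneg hδ0 k
      rw [abs_le]
      constructor <;> linarith
    have hnn : ∀ k, 0 ≤ aa ε k x + δ ^ k := fun k => by
      have := hlow x hx k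
      linarith
    have hs1 : HasSum (fun k => aa ε k x) 1 := by
      have := aa_sum ε x 1
      simpa using this
    have hs2 : HasSum (fun k => aa ε k x + δ ^ k) (1 + (1 - δ)⁻¹) :=
      hs1.add (hasSum_geometric_of_lt_one hδ0 (by linarith))
    have h4 : ∑ k ∈ range n, (aa ε k x + δ ^ k) ≤ 1 + (1 - δ)⁻¹ :=
      sum_le_hasSum _ (fun k _ => hnn k) hs2
    calc ∑ k ∈ range n, |aa ε k x| ≤ ∑ k ∈ range n, (aa ε k x + 2 * δ ^ k) :=
          sum_le_sum fun k _ => h1 k
      _ = ∑ k ∈ range n, (aa ε k x + δ ^ k) + ∑ k ∈ range n, δ ^ k := by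
          rw [← sum_add_distrib]
          exact sum_congr rfl fun k _ => by ring
      _ ≤ 7 := by
          have := hgeo n
          linarith
  refine mixture (μ := μ) (aa ε) (aa_meas ε)
    (fun w x => Real.exp (-x * ((1 - w) * (1 - ε - ε * w)))) 7 ?_ ?_ ?_ ?_ 1
  · filter_upwards [hae] with x hx using habs x hx
  · exact ae_of_all _ fun x w _ => aa_sum ε x w
  · exact ae_of_all _ fun x => by simp
  · intro k
    have hint : Integrable (aa ε k) μ := by
      refine Integrable.of_bound (C := 7) (aa_meas ε k).aestronglyMeasurable ?_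
      filter_upwards [hae] with x hx
      rw [Real.norm_eq_abs]
      exact (single_le_sum (f := fun k => |aa ε k x|) (fun i _ => abs_nonneg _)
        (self_mem_range_succ k)).trans (habs x hx (k + 1))
    rcases Nat.eq_zero_or_pos k with hk0 | hk
    · subst hk0
      refine integral_nonneg fun x => ?_
      show 0 ≤ aa ε 0 x
      rw [aa, H_zero, mul_one]
      exact (Real.exp_pos _).le
    · have hk' : (1 : ℝ) ≤ k := by exact_mod_cast hk
      have hm0 : 0 ≤ Real.exp (-(M * k)) / 2 ^ k := by positivity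
      have hpt : ∀ x ∈ Set.Icc (k : ℝ) (M * k), Real.exp (-(M * k)) / 2 ^ k ≤ aa ε k x := by
        intro x hx
        obtain ⟨hx1, hx2⟩ := hx
        have hx0 : 0 ≤ x := by linarith
        have h8 : 8 * ε * k ≤ x := by
          rw [h8R k]
          exact (div_le_self (by linarith) hR1).trans hx1
        have h9 := H_lower hx0 hε h8 k le_rfl
        have h10 : (1 / 2 : ℝ) ^ k ≤ (x / 2) ^ k / k ! := by
          rw [le_div_iff₀ (by positivity)]
          have h11 : ((k ! : ℕ) : ℝ) ≤ (k : ℝ) ^ k := by exact_mod_cast Nat.factorial_le_pow k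
          calc (1 / 2 : ℝ) ^ k * k ! ≤ (1 / 2) ^ k * (k : ℝ) ^ k :=
                mul_le_mul_of_nonneg_left h11 (by positivity)
            _ = (k / 2 : ℝ) ^ k := by rw [← mul_pow]; congr 1; ring
            _ ≤ (x / 2) ^ k := pow_le_pow_left₀ (by positivity) (by linarith) k
        have h12 : Real.exp (-(M * k)) ≤ Real.exp (-x * (1 - ε)) := by
          apply Real.exp_le_exp.2
          nlinarith [mul_nonneg hx0 hε]
        have h13 : Real.exp (-(M * k)) / 2 ^ k = Real.exp (-(M * k)) * (1 / 2 : ℝ) ^ k := by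
          rw [one_div_pow, mul_one_div]
        rw [h13, aa]
        exact mul_le_mul h12 (h10.trans h9) (by positivity) (Real.exp_pos _).le
      have hsum : ∫ x, (Set.Icc (k : ℝ) (M * k)).indicator
          (fun _ => Real.exp (-(M * k)) / 2 ^ k) x ∂μ ≤ ∫ x, (aa ε k x + δ ^ k) ∂μ := by
        refine integral_mono_ae ((integrable_const _).indicator measurableSet_Icc)
          (hint.add (integrable_const _)) ?_
        filter_upwards [hae] with x hx
        have h13 := hlow x hx k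
        have h14 : 0 ≤ δ ^ k := pow_nonneg hδ0 k
        by_cases hxS : x ∈ Set.Icc (k : ℝ) (M * k)
        · rw [Set.indicator_of_mem hxS]
          have := hpt x hxS
          linarith
        · rw [Set.indicator_of_notMem hxS]
          linarith
      rw [integral_indicator measurableSet_Icc, setIntegral_const,
        integral_add hint (integrable_const _), integral_const, probReal_univ, one_smul,
        smul_eq_mul] at hsum
      have h15 := htail k hk
      have h16 : δ ^ k ≤ μ.real (Set.Icc (k : ℝ) (M * k)) * (Real.exp (-(M * k)) / 2 ^ k) := by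
        calc δ ^ k = (Real.exp (-(M + C)) / 4) ^ k := by rw [hδ]
          _ ≤ (Real.exp (-(M + C)) / 2) ^ k :=
              pow_le_pow_left₀ (by positivity) (by linarith [Real.exp_pos (-(M + C))]) k
          _ = Real.exp (-(C * k)) * (Real.exp (-(M * k)) / 2 ^ k) := by
              rw [div_pow, ← Real.exp_nat_mul, mul_div_assoc', ← Real.exp_add]
              congr 2
              ring
          _ ≤ μ.real (Set.Icc (k : ℝ) (M * k)) * (Real.exp (-(M * k)) / 2 ^ k) :=
              mul_le_mul_of_nonneg_right h15 hm0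
      linarith

/-- The first factor is a characteristic function. -/
lemma cf_first {μ : Measure ℝ} [IsProbabilityMeasure μ] (hμ : μ (Set.Iio 0) = 0) {ε : ℝ}
    (hε : 0 ≤ ε) :
    IsCF (fun ξ => ∫ x, Real.exp (-(ε / 2 * x) * ((1 - Real.cos (2 * ξ)) *
      (1 - 0 - 0 * Real.cos (2 * ξ)))) ∂μ) := by
  have hae : ∀ᵐ x ∂μ, 0 ≤ x := by
    rw [ae_iff]
    have : {a : ℝ | ¬ 0 ≤ a} = Set.Iio 0 := by
      ext a
      simp
    rw [this]
    exact hμ
  have hnn : ∀ x, 0 ≤ x → ∀ k, 0 ≤ aa 0 k (ε / 2 * x) := by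
    intro x hx k
    have h1 : 0 ≤ ε / 2 * x := by positivity
    have h2 := (H_pos h1 le_rfl (k := k) (by simpa using h1) k le_rfl).1
    exact mul_nonneg (Real.exp_pos _).le h2
  refine mixture (μ := μ) (fun k x => aa 0 k (ε / 2 * x))
    (fun k => (aa_meas 0 k).comp (measurable_const.mul measurable_id))
    (fun w x => Real.exp (-(ε / 2 * x) * ((1 - w) * (1 - 0 - 0 * w)))) 1 ?_ ?_ ?_ ?_ 2
  · filter_upwards [hae] with x hx
    intro n
    have hs1 : HasSum (fun k => aa 0 k (ε / 2 * x)) 1 := by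
      have := aa_sum 0 (ε / 2 * x) 1
      simpa using this
    have h1 : ∀ k, |aa 0 k (ε / 2 * x)| = aa 0 k (ε / 2 * x) := fun k =>
      abs_of_nonneg (hnn x hx k)
    simp only [h1]
    exact sum_le_hasSum _ (fun k _ => hnn x hx k) hs1
  · exact ae_of_all _ fun x w _ => aa_sum 0 (ε / 2 * x) w
  · exact ae_of_all _ fun x => by simp
  · intro k
    refine integral_nonneg_of_ae ?_
    filter_upwards [hae] with x hx
    exact hnn x hx k

lemma cos_int {ν : Measure ℝ} (hint : Integrable (fun t : ℝ => min 1 (t ^ 2)) ν) (ξ : ℝ) :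
    Integrable (fun t : ℝ => 1 - Real.cos (t * ξ)) ν := by
  refine Integrable.mono' (hint.const_mul (2 + ξ ^ 2))
    (by fun_prop : Continuous fun t : ℝ => 1 - Real.cos (t * ξ)).aestronglyMeasurable
    (ae_of_all _ fun t => ?_)
  have h1 : 0 ≤ 1 - Real.cos (t * ξ) := by linarith [Real.cos_le_one (t * ξ)]
  rw [Real.norm_of_nonneg h1]
  rcases le_total 1 (t ^ 2) with h | h
  · rw [min_eq_left h]
    have := Real.neg_one_le_cos (t * ξ)
    nlinarith [sq_nonneg ξ]
  · rw [min_eq_right h]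
    have := Real.one_sub_sq_div_two_le_cos (x := t * ξ)
    nlinarith [sq_nonneg ξ, sq_nonneg t, mul_nonneg (sq_nonneg t) (sq_nonneg ξ)]

lemma InC_nonneg {η : ℝ → ℝ} (h : InC η) (ξ : ℝ) : 0 ≤ η ξ := by
  obtain ⟨σ, ν, _, _, _, hf⟩ := h
  rw [hf ξ]
  have : 0 ≤ ∫ t, (1 - Real.cos (t * ξ)) ∂ν :=
    integral_nonneg fun t => by
      show 0 ≤ 1 - Real.cos (t * ξ)
      linarith [Real.cos_le_one (t * ξ)]
  positivity

lemma not_InC {ε : ℝ} (hε : 0 < ε) {η : ℝ → ℝ} (h : InC η)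
    (hη : ∀ ξ, η ξ = (1 - Real.cos ξ) * (1 - ε - ε * Real.cos ξ)) : False := by
  obtain ⟨σ, ν, _, _, hint, hf⟩ := h
  have hnn : ∀ ξ, 0 ≤ ∫ t, (1 - Real.cos (t * ξ)) ∂ν := fun ξ =>
    integral_nonneg fun t => by
      show 0 ≤ 1 - Real.cos (t * ξ)
      linarith [Real.cos_le_one (t * ξ)]
  have h1 := hf (2 * Real.pi)
  rw [hη, Real.cos_two_pi, sub_self, zero_mul] at h1
  have h2 := hnn (2 * Real.pi)
  have hπ := Real.pi_pos
  have h3 : 0 ≤ 1 / 2 * σ ^ 2 * (2 * Real.pi) ^ 2 := by positivity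
  have h4 : 1 / 2 * σ ^ 2 * (2 * Real.pi) ^ 2 = 0 := by linarith
  have h5 : σ ^ 2 = 0 := by
    rcases mul_eq_zero.1 h4 with h6 | h6
    · linarith
    · exfalso
      have : (2 * Real.pi) ^ 2 ≠ 0 := by positivity
      exact this h6
  have h6 : ∫ t, (1 - Real.cos (t * (2 * Real.pi))) ∂ν = 0 := by linarith
  have h7 := (integral_eq_zero_iff_of_nonneg (fun t => by
      show 0 ≤ 1 - Real.cos (t * (2 * Real.pi))
      linarith [Real.cos_le_one (t * (2 * Real.pi))]) (cos_int hint _)).1 h6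
  have h8 : ∫ t, ((1 - Real.cos (t * Real.pi)) - 2 * (1 - Real.cos (t * (Real.pi / 2)))) ∂ν ≤ 0 := by
    refine integral_nonpos_of_ae ?_
    filter_upwards [h7] with t ht
    have ht' : 1 - Real.cos (t * (2 * Real.pi)) = 0 := ht
    have e1 : Real.cos (t * Real.pi) = 2 * Real.cos (t * (Real.pi / 2)) ^ 2 - 1 := by
      rw [show t * Real.pi = 2 * (t * (Real.pi / 2)) by ring, Real.cos_two_mul]
    have e2 : Real.cos (t * (2 * Real.pi)) = 2 * Real.cos (t * Real.pi) ^ 2 - 1 := by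
      rw [show t * (2 * Real.pi) = 2 * (t * Real.pi) by ring, Real.cos_two_mul]
    rw [e2, e1] at ht'
    show (1 - Real.cos (t * Real.pi)) - 2 * (1 - Real.cos (t * (Real.pi / 2))) ≤ 0
    rw [e1]
    generalize Real.cos (t * (Real.pi / 2)) = c at ht' ⊢
    have h9 : c ^ 2 * (c ^ 2 - 1) = 0 := by nlinarith
    rcases mul_eq_zero.1 h9 with h10 | h10
    · have : c = 0 := by simpa using h10
      rw [this]
      norm_num
    · have h11 : (c - 1) * (c + 1) = 0 := by nlinarith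
      rcases mul_eq_zero.1 h11 with h12 | h12
      · have : c = 1 := by linarith
        rw [this]
        norm_num
      · have : c = -1 := by linarith
        rw [this]
        norm_num
  rw [integral_sub (cos_int hint _) ((cos_int hint _).const_mul _), integral_const_mul] at h8
  have h9 := hf Real.pi
  have h10 := hf (Real.pi / 2)
  rw [hη, h5, Real.cos_pi] at h9
  rw [hη, h5, Real.cos_pi_div_two] at h10
  nlinarith

lemma L_inj {μ : Measure ℝ} [IsProbabilityMeasure μ] (hμ : μ (Set.Iio 0) = 0) {T : Set ℝ}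
    (hT : μ T ≠ 0) (hT0 : (0 : ℝ) ∉ T) {s s' : ℝ} (hs : 0 ≤ s) (hss : s < s')
    (h : ∫ x, Real.exp (-(s * x)) ∂μ = ∫ x, Real.exp (-(s' * x)) ∂μ) : False := by
  have hae : ∀ᵐ x ∂μ, 0 ≤ x := by
    rw [ae_iff]
    have : {a : ℝ | ¬ 0 ≤ a} = Set.Iio 0 := by
      ext a
      simp
    rw [this]
    exact hμ
  have hi : ∀ r : ℝ, 0 ≤ r → Integrable (fun x => Real.exp (-(r * x))) μ := by
    intro r hr
    refine Integrable.of_bound (C := 1)
      (by fun_prop : Continuous fun x : ℝ => Real.exp (-(r * x))).aestronglyMeasurable ?_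
    filter_upwards [hae] with x hx
    rw [Real.norm_of_nonneg (Real.exp_pos _).le, Real.exp_le_one_iff]
    have := mul_nonneg hr hx
    linarith
  have h1 : ∫ x, (Real.exp (-(s * x)) - Real.exp (-(s' * x))) ∂μ = 0 := by
    rw [integral_sub (hi s hs) (hi s' (by linarith)), h, sub_self]
  have h2 := (integral_eq_zero_iff_of_nonneg_ae (by
      filter_upwards [hae] with x hx
      show 0 ≤ Real.exp (-(s * x)) - Real.exp (-(s' * x))
      rw [sub_nonneg]
      apply Real.exp_le_exp.2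
      nlinarith) ((hi s hs).sub (hi s' (by linarith)))).1 h1
  have h3 : ∀ᵐ x ∂μ, x ∉ T := by
    filter_upwards [h2] with x hx
    have hx' : Real.exp (-(s * x)) - Real.exp (-(s' * x)) = 0 := hx
    have h4 : -(s * x) = -(s' * x) := Real.exp_injective (by linarith)
    have h5 : (s' - s) * x = 0 := by linarith
    rcases mul_eq_zero.1 h5 with h6 | h6
    · exfalso
      linarith
    · rw [h6]
      exact hT0
  exact hT (by
    rw [ae_iff] at h3
    simpa using h3)

/-- Let `L (s) = ∫ exp (-s x) μ(dx)`, `s ≥ 0`, for a probability measure `μ` on `[0, ∞)` whose tail is at least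
exponential: `μ [k, M k] ≥ exp (- C k)` for all integers `k ≥ 1`.  Then `L` does not have property (R). -/
theorem result (L : ℝ → ℝ) (μ : Measure ℝ) [IsProbabilityMeasure μ] (hμ : μ (Set.Iio 0) = 0)
    (hL : ∀ s : ℝ, 0 ≤ s → L s = ∫ x, Real.exp (-(s * x)) ∂μ) (C M : ℝ) (hC : 0 ≤ C) (hM : 1 ≤ M)
    (htail : ∀ k : ℕ, 1 ≤ k → Real.exp (-(C * k)) ≤ μ.real (Set.Icc (k : ℝ) (M * k))) :
    ¬ PropR L := by
  intro hprop
  obtain ⟨R, hR⟩ : ∃ R : ℝ, R = 4 * Real.exp (2 + M + C) := ⟨_, rfl⟩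
  have hexp : 1 ≤ Real.exp (2 + M + C) := Real.one_le_exp (by linarith)
  have hR1 : 1 ≤ R := by rw [hR]; linarith
  have hRp : 0 < R := by linarith
  have c2 := cf_second hμ hC hM htail hR
  have hε : 0 < 1 / (8 * R) := by positivity
  have hε8 : 1 / (8 * R) ≤ 1 / 8 := one_div_le_one_div_of_le (by norm_num) (by linarith)
  generalize 1 / (8 * R) = ε at *
  have c1 := cf_first hμ hε.le
  have hs1 : ∀ ξ, 0 ≤ ε * (1 - Real.cos ξ ^ 2) := fun ξ => by
    have := Real.cos_sq_le_one ξ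
    exact mul_nonneg hε.le (by linarith)
  have hs2 : ∀ ξ, 0 ≤ (1 - Real.cos ξ) * (1 - ε - ε * Real.cos ξ) := fun ξ => by
    have h1 := Real.cos_le_one ξ
    have h2 := Real.neg_one_le_cos ξ
    refine mul_nonneg (by linarith) ?_
    nlinarith
  obtain ⟨η₁, η₂, -, hη₂, -, hf₂⟩ := hprop _ _ (fun ξ => ε * (1 - Real.cos ξ ^ 2))
    (fun ξ => (1 - Real.cos ξ) * (1 - ε - ε * Real.cos ξ)) (fun ξ => 1 * (1 - Real.cos (1 * ξ)))
    c1 c2 (fun ξ => ⟨hs1 ξ, by
      rw [hL _ (hs1 ξ)]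
      refine integral_congr_ae (ae_of_all _ fun x => ?_)
      show Real.exp _ = Real.exp _
      congr 1
      rw [Real.cos_two_mul]
      ring⟩)
    (fun ξ => ⟨hs2 ξ, by
      rw [hL _ (hs2 ξ)]
      refine integral_congr_ae (ae_of_all _ fun x => ?_)
      show Real.exp _ = Real.exp _
      congr 1
      rw [one_mul]
      ring⟩)
    (Or.inr ⟨1, 1, one_pos, one_pos, fun ξ => rfl⟩)
    (fun ξ => by
      congr 1
      rw [one_mul]
      ring)
  have hT : μ (Set.Icc ((1 : ℕ) : ℝ) (M * (1 : ℕ))) ≠ 0 := by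
    intro h0
    have h1 := htail 1 le_rfl
    rw [measureReal_def, h0, ENNReal.toReal_zero] at h1
    exact absurd h1 (not_le.2 (Real.exp_pos _))
  have hT0 : (0 : ℝ) ∉ Set.Icc ((1 : ℕ) : ℝ) (M * (1 : ℕ)) := by
    intro h0
    have := h0.1
    norm_num at this
  refine not_InC hε hη₂ fun ξ => ?_
  have h1 := hf₂ ξ
  have h2 : ∫ x, Real.exp (-((1 - Real.cos ξ) * (1 - ε - ε * Real.cos ξ) * x)) ∂μ =
      ∫ x, Real.exp (-(η₂ ξ * x)) ∂μ := by
    rw [← hL _ (InC_nonneg hη₂ ξ), ← h1]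
    refine integral_congr_ae (ae_of_all _ fun x => ?_)
    show Real.exp _ = Real.exp _
    congr 1
    rw [one_mul]
    ring
  rcases lt_trichotomy (η₂ ξ) ((1 - Real.cos ξ) * (1 - ε - ε * Real.cos ξ)) with h3 | h3 | h3
  · exact (L_inj hμ hT hT0 (InC_nonneg hη₂ ξ) h3 h2.symm).elim
  · exact h3
  · exact (L_inj hμ hT hT0 (hs2 ξ) h3 h2).elim

end Pool.Agent.Results.MP_9cb8e5_pr.ExponentialTails
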